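import Pool.Agent.H7.GT.Stmts

/-!
Row GRD of the board gt7.
-/

set_option autoImplicit false

open Finset

namespace Pool.GT7

open Pool.Agent.H23.KT Pool.Agent.H46.KW Pool.KQ

private theorem GRD_prod (x : ℕ → ℝ) (m : ℕ) (h : ∀ i < m, 0 ≤ x i ∧ x i ≤ 1) :
    1 - ∑ i ∈ range m, x i ≤ ∏ i ∈ range m, (1 - x i) ∧
      0 ≤ ∏ i ∈ range m, (1 - x i) ∧ ∏ i ∈ range m, (1 - x i) ≤ 1 := by
  induction m with
  | zero => simp
  | succ m ih =>
    obtain ⟨h1, h2, h3⟩ := ih fun i hi => h i (Nat.lt_succ_of_lt hi)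
    obtain ⟨h4, h5⟩ := h m (Nat.lt_succ_self m)
    rw [sum_range_succ, prod_range_succ]
    refine ⟨?_, mul_nonneg h2 (by linarith), ?_⟩
    · nlinarith
    · nlinarith

private theorem GRD_mem_non {V : Type} {G : SimpleGraph V} {X : Finset V} {u y : V} :
    y ∈ non G X u ↔ y ∈ X ∧ ¬ G.Adj u y := by
  classical
  unfold non
  rw [mem_filter]

private theorem GRD_sum (j m : ℕ) :
    ∑ i ∈ range m, ((j : ℝ) + i) = j * m + m * ((m : ℝ) - 1) / 2 := by
  induction m with
  | zero => simp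
  | succ m ih =>
    rw [sum_range_succ, ih]
    push_cast
    ring

private theorem GRD_num (p j m : ℕ) (e : ℝ) (he0 : 0 ≤ e) (he : e ≤ e1 p / 2)
    (hjm : j + m ≤ p + 3) :
    (∀ i < m, 0 ≤ e + ((j : ℝ) + i) * e1 p ∧ e + ((j : ℝ) + i) * e1 p ≤ 1) ∧
    1 - 1 / (32 * ((p : ℝ) + 3)) ≤ ∏ i ∈ range m, (1 - (e + ((j : ℝ) + i) * e1 p)) := by
  have hb : (3 : ℝ) ≤ (p : ℝ) + 3 := by
    have : (0 : ℝ) ≤ p := Nat.cast_nonneg p
    linarith
  set b : ℝ := (p : ℝ) + 3 with hbdef
  have hb0 : 0 < b := by linarith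
  have hδ0 : 0 < e1 p := by unfold e1; positivity
  have hδ : e1 p * (16 * b ^ 3) = 1 := by
    unfold e1
    rw [one_div, inv_mul_cancel₀ (by positivity)]
  have hjmR : (j : ℝ) + m ≤ b := by
    rw [hbdef]
    exact_mod_cast hjm
  have hδb : e1 p * b ^ 2 = 1 / (16 * b) := by
    rw [eq_div_iff (by positivity)]
    linarith [hδ]
  have hδb2 : e1 p * b ^ 2 ≤ 1 / 48 := by
    rw [hδb]
    exact one_div_le_one_div_of_le (by norm_num) (by linarith)
  have hj0 : (0 : ℝ) ≤ j := Nat.cast_nonneg j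
  have hm0 : (0 : ℝ) ≤ m := Nat.cast_nonneg m
  have hall : ∀ i < m, 0 ≤ e + ((j : ℝ) + i) * e1 p ∧ e + ((j : ℝ) + i) * e1 p ≤ 1 := by
    intro i hi
    have hi' : (i : ℝ) ≤ m := by exact_mod_cast hi.le
    have hi0 : (0 : ℝ) ≤ i := Nat.cast_nonneg i
    refine ⟨by positivity, ?_⟩
    have h1 : ((j : ℝ) + i) * e1 p ≤ b * e1 p := mul_le_mul_of_nonneg_right (by linarith) hδ0.le
    have h2 : b * e1 p ≤ e1 p * b ^ 2 := by nlinarith
    have h3 : e1 p ≤ e1 p * b ^ 2 := by nlinarith
    linarith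
  refine ⟨hall, ?_⟩
  have h1 := (GRD_prod (fun i => e + ((j : ℝ) + i) * e1 p) m hall).1
  have h2 : ∑ i ∈ range m, (e + ((j : ℝ) + i) * e1 p)
      = m * e + (j * m + m * ((m : ℝ) - 1) / 2) * e1 p := by
    rw [sum_add_distrib, ← sum_mul, GRD_sum, sum_const, card_range, nsmul_eq_mul]
  have h3 : m * e ≤ b * (e1 p / 2) := by
    calc m * e ≤ m * (e1 p / 2) := mul_le_mul_of_nonneg_left he hm0
      _ ≤ b * (e1 p / 2) := mul_le_mul_of_nonneg_right (by linarith) (by linarith)
  have h4 : j * m + m * ((m : ℝ) - 1) / 2 ≤ b * (b - 1) / 2 := by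
    have hjj : (j : ℝ) ≤ (j : ℝ) ^ 2 := by
      rcases Nat.eq_zero_or_pos j with h | h
      · rw [h]; norm_num
      · have : (1 : ℝ) ≤ j := by exact_mod_cast h
        nlinarith
    have h5 : ((j : ℝ) + m) * ((j : ℝ) + m - 1) ≤ b * (b - 1) := by
      rcases Nat.eq_zero_or_pos (j + m) with h | h
      · have : (j : ℝ) + m = 0 := by exact_mod_cast h
        rw [this]
        nlinarith
      · have : (1 : ℝ) ≤ (j : ℝ) + m := by exact_mod_cast h
        exact mul_le_mul hjmR (by linarith) (by linarith) hb0.le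
    nlinarith
  have h6 : (j * m + m * ((m : ℝ) - 1) / 2) * e1 p ≤ b * (b - 1) / 2 * e1 p :=
    mul_le_mul_of_nonneg_right h4 hδ0.le
  have h7 : b * (e1 p / 2) + b * (b - 1) / 2 * e1 p = 1 / (32 * b) := by
    have : b * (e1 p / 2) + b * (b - 1) / 2 * e1 p = e1 p * b ^ 2 / 2 := by ring
    rw [this, hδb]
    field_simp
    norm_num
  rw [h2] at h1
  linarith

private theorem GRD_main {V : Type} [DecidableEq V] (G : SimpleGraph V) (p a : ℕ) (e : ℝ)
    (P : Fin (p + 3) → Finset V) (he0 : 0 ≤ e) (he : e ≤ e1 p / 2) (hP : Par G P)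
    (hlo : ∀ i, (1 - e) * a ≤ ((P i).card : ℝ))
    (hmis : ∀ i, ∀ u ∈ P i, ∀ k, k ≠ i → ((non G (P k) u).card : ℝ) ≤ e1 p * a) :
    ∀ (m j : ℕ) (S : Finset V), S ⊆ un P → (∀ i, (S ∩ P i).card ≤ 1) → S.card = j →
    j + m ≤ p + 3 →
    ((p + 3 - j).choose m : ℝ) * ((a : ℝ) ^ m *
      ∏ i ∈ range m, (1 - (e + ((j : ℝ) + i) * e1 p))) ≤ kc G (cn G (un P) S) m := by
  intro m
  induction m with
  | zero => intro j S _ _ _ _; simp [kc_zero]
  | succ m ih =>
    intro j S hS hSi hSc hjm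
    set Y := cn G (un P) S with hY
    have hall := (GRD_num p j (m + 1) e he0 he hjm).1
    have hall' := (GRD_num p (j + 1) m e he0 he (by omega)).1
    set q : ℝ := ∏ i ∈ range m, (1 - (e + (((j + 1 : ℕ) : ℝ) + i) * e1 p)) with hq
    have hq0 : 0 ≤ q := (GRD_prod _ m hall').2.1
    -- the links
    have hlink : ∀ v ∈ Y, ((p + 3 - (j + 1)).choose m : ℝ) * ((a : ℝ) ^ m * q) ≤
        kc G (nb G Y v) m := by
      intro v hv
      rw [hY, mem_cn] at hv
      obtain ⟨hvX, hvS⟩ := hv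
      have hvn : v ∉ S := fun h => G.loopless.irrefl v (hvS v h)
      have heq : nb G Y v = cn G (un P) (insert v S) := by
        ext y
        rw [mem_nb, hY, mem_cn, mem_cn]
        constructor
        · rintro ⟨⟨h1, h2⟩, h3⟩
          refine ⟨h1, fun s hs => ?_⟩
          rcases mem_insert.1 hs with rfl | hs
          · exact h3
          · exact h2 s hs
        · rintro ⟨h1, h2⟩
          exact ⟨⟨h1, fun s hs => h2 s (mem_insert_of_mem hs)⟩, h2 v (mem_insert_self _ _)⟩
      rw [heq]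
      refine ih (j + 1) (insert v S) (insert_subset hvX hS) ?_
        (by rw [card_insert_of_notMem hvn, hSc]) (by omega)
      intro i
      by_cases hvi : v ∈ P i
      · have h0 : S ∩ P i = ∅ := by
          rw [eq_empty_iff_forall_notMem]
          intro s hs
          rw [mem_inter] at hs
          exact hP.ind i s hs.2 v hvi (hvS s hs.1)
        rw [insert_inter_of_mem hvi, h0]
        simp
      · rw [insert_inter_of_notMem hvi]
        exact hSi i
    -- the number of common neighbours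
    set I : Finset (Fin (p + 3)) := univ.filter fun i => S ∩ P i = ∅ with hI
    have hYI : ∀ i ∈ I, (1 - (e + (j : ℝ) * e1 p)) * a ≤ ((Y ∩ P i).card : ℝ) := by
      intro i hi
      rw [hI, mem_filter] at hi
      have h1 : P i ⊆ (Y ∩ P i) ∪ S.biUnion fun x => non G (P i) x := by
        intro y hy
        by_cases h : ∀ s ∈ S, G.Adj s y
        · refine mem_union_left _ (mem_inter.2 ⟨?_, hy⟩)
          rw [hY, mem_cn]
          exact ⟨mem_biUnion.2 ⟨i, mem_univ i, hy⟩, h⟩
        · push Not at h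
          obtain ⟨s, hs, hsy⟩ := h
          refine mem_union_right _ (mem_biUnion.2 ⟨s, hs, ?_⟩)
          exact GRD_mem_non.2 ⟨hy, hsy⟩
      have h2 : (P i).card ≤ (Y ∩ P i).card + ∑ x ∈ S, (non G (P i) x).card :=
        (card_le_card h1).trans ((card_union_le _ _).trans
          (Nat.add_le_add_left card_biUnion_le _))
      have h3 : ((∑ x ∈ S, (non G (P i) x).card : ℕ) : ℝ) ≤ j * (e1 p * a) := by
        rw [Nat.cast_sum]
        calc ∑ x ∈ S, ((non G (P i) x).card : ℝ) ≤ ∑ _x ∈ S, e1 p * a := by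
              refine sum_le_sum fun x hx => ?_
              obtain ⟨k, -, hk⟩ := mem_biUnion.1 (hS hx)
              refine hmis k x hk i ?_
              rintro rfl
              have : x ∈ S ∩ P i := mem_inter.2 ⟨hx, hk⟩
              rw [hi.2] at this
              exact absurd this (notMem_empty _)
          _ = j * (e1 p * a) := by rw [sum_const, nsmul_eq_mul, hSc]
      have h4 : ((P i).card : ℝ) ≤ (Y ∩ P i).card +
          ((∑ x ∈ S, (non G (P i) x).card : ℕ) : ℝ) := by exact_mod_cast h2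
      have h5 := hlo i
      nlinarith
    have hIc : p + 3 - j ≤ I.card := by
      have h1 : (univ.filter fun i : Fin (p + 3) => ¬ S ∩ P i = ∅).card ≤ j := by
        calc (univ.filter fun i : Fin (p + 3) => ¬ S ∩ P i = ∅).card
            = ∑ i ∈ univ.filter fun i : Fin (p + 3) => ¬ S ∩ P i = ∅, 1 := by simp
          _ ≤ ∑ i ∈ univ.filter fun i : Fin (p + 3) => ¬ S ∩ P i = ∅, (S ∩ P i).card := by
              refine sum_le_sum fun i hi => ?_
              rw [mem_filter] at hi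
              exact card_pos.2 (nonempty_iff_ne_empty.2 hi.2)
          _ = ((univ.filter fun i : Fin (p + 3) => ¬ S ∩ P i = ∅).biUnion
              fun i => S ∩ P i).card := by
              rw [card_biUnion]
              intro i _ k _ hik
              exact (hP.dis i k hik).mono inter_subset_right inter_subset_right
          _ ≤ S.card := card_le_card (by
              intro x hx
              obtain ⟨i, -, hi⟩ := mem_biUnion.1 hx
              exact (mem_inter.1 hi).1)
          _ = j := hSc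
      have h2 := card_filter_add_card_filter_not (s := (univ : Finset (Fin (p + 3))))
        (fun i => S ∩ P i = ∅)
      rw [card_univ, Fintype.card_fin] at h2
      rw [hI]
      omega
    have hx0 : 0 ≤ 1 - (e + (j : ℝ) * e1 p) := by
      have := (hall 0 (Nat.succ_pos m)).2
      push_cast at this
      linarith
    have hYc : ((p + 3 - j : ℕ) : ℝ) * ((1 - (e + (j : ℝ) * e1 p)) * a) ≤ (Y.card : ℝ) := by
      have h1 : ∑ i ∈ I, (Y ∩ P i).card ≤ Y.card := by
        rw [← card_biUnion]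
        · refine card_le_card ?_
          intro x hx
          obtain ⟨i, -, hi⟩ := mem_biUnion.1 hx
          exact (mem_inter.1 hi).1
        · intro i _ k _ hik
          exact (hP.dis i k hik).mono inter_subset_right inter_subset_right
      calc ((p + 3 - j : ℕ) : ℝ) * ((1 - (e + (j : ℝ) * e1 p)) * a)
          ≤ (I.card : ℝ) * ((1 - (e + (j : ℝ) * e1 p)) * a) := by
            refine mul_le_mul_of_nonneg_right (by exact_mod_cast hIc)
              (mul_nonneg hx0 (Nat.cast_nonneg a))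
        _ = ∑ i ∈ I, (1 - (e + (j : ℝ) * e1 p)) * a := by rw [sum_const, nsmul_eq_mul]
        _ ≤ ∑ i ∈ I, ((Y ∩ P i).card : ℝ) := sum_le_sum hYI
        _ ≤ (Y.card : ℝ) := by exact_mod_cast h1
    -- the sum
    have hsum := kc_sum G Y m
    have h1 : (Y.card : ℝ) * (((p + 3 - (j + 1)).choose m : ℝ) * ((a : ℝ) ^ m * q)) ≤
        ((m : ℝ) + 1) * kc G Y (m + 1) := by
      calc (Y.card : ℝ) * (((p + 3 - (j + 1)).choose m : ℝ) * ((a : ℝ) ^ m * q))
          = ∑ v ∈ Y, (((p + 3 - (j + 1)).choose m : ℝ) * ((a : ℝ) ^ m * q)) := by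
            rw [sum_const, nsmul_eq_mul]
        _ ≤ ∑ v ∈ Y, (kc G (nb G Y v) m : ℝ) := sum_le_sum hlink
        _ = ((m : ℝ) + 1) * kc G Y (m + 1) := by
            rw [← Nat.cast_sum, hsum]
            push_cast
            ring
    have h2 : ((p + 3 - j : ℕ) : ℝ) * ((p + 3 - (j + 1)).choose m : ℝ) =
        ((p + 3 - j).choose (m + 1) : ℝ) * ((m : ℝ) + 1) := by
      have h := Nat.add_one_mul_choose_eq (p + 3 - (j + 1)) m
      rw [show p + 3 - (j + 1) + 1 = p + 3 - j by omega] at h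
      exact_mod_cast h
    have h3 : ∏ i ∈ range (m + 1), (1 - (e + ((j : ℝ) + i) * e1 p)) =
        q * (1 - (e + (j : ℝ) * e1 p)) := by
      rw [prod_range_succ', hq]
      congr 1
      · refine prod_congr rfl fun i _ => ?_
        push_cast
        ring
      · push_cast
        ring
    have h4 : (((p + 3 - j).choose (m + 1) : ℝ) * ((a : ℝ) ^ (m + 1) *
        ∏ i ∈ range (m + 1), (1 - (e + ((j : ℝ) + i) * e1 p)))) * ((m : ℝ) + 1) ≤
        kc G Y (m + 1) * ((m : ℝ) + 1) := by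
      calc (((p + 3 - j).choose (m + 1) : ℝ) * ((a : ℝ) ^ (m + 1) *
          ∏ i ∈ range (m + 1), (1 - (e + ((j : ℝ) + i) * e1 p)))) * ((m : ℝ) + 1)
          = (((p + 3 - j : ℕ) : ℝ) * ((1 - (e + (j : ℝ) * e1 p)) * a)) *
            (((p + 3 - (j + 1)).choose m : ℝ) * ((a : ℝ) ^ m * q)) := by
            rw [h3, pow_succ]
            linear_combination (-(a : ℝ) ^ m * a * q * (1 - (e + (j : ℝ) * e1 p))) * h2
        _ ≤ (Y.card : ℝ) * (((p + 3 - (j + 1)).choose m : ℝ) * ((a : ℝ) ^ m * q)) :=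
            mul_le_mul_of_nonneg_right hYc (by positivity)
        _ ≤ ((m : ℝ) + 1) * kc G Y (m + 1) := h1
        _ = kc G Y (m + 1) * ((m : ℝ) + 1) := mul_comm _ _
    exact le_of_mul_le_mul_right h4 (by positivity)

theorem GRD_thm : GRDStmt := by
  intro V _ G p a e P he0 he hP hlo hmis S j m hS hSi hSc hjm
  have h1 := GRD_main G p a e P he0 he hP hlo hmis m j S hS hSi hSc hjm
  have h2 := (GRD_num p j m e he0 he hjm).2
  refine le_trans ?_ h1
  have h3 : (0 : ℝ) ≤ ((p + 3 - j).choose m : ℝ) * (a : ℝ) ^ m := by positivity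
  calc (1 - 1 / (32 * ((p : ℝ) + 3))) * (((p + 3 - j).choose m : ℝ) * (a : ℝ) ^ m)
      ≤ (∏ i ∈ range m, (1 - (e + ((j : ℝ) + i) * e1 p))) *
        (((p + 3 - j).choose m : ℝ) * (a : ℝ) ^ m) := mul_le_mul_of_nonneg_right h2 h3
    _ = _ := by ring

end Pool.GT7
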